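import Mathlib

set_option autoImplicit false

namespace Pool.Agent.Results.MP_8926dc_co.TwoPendants

open Finset SimpleGraph

/-- `k_j(G)`: the number of `j`-element vertex sets spanning a clique in `G`. -/
noncomputable def cliqueCount {V : Type} (G : SimpleGraph V) (j : ℕ) : ℕ :=
  Set.ncard {S : Finset V | G.IsNClique j S}

/-- `f_j(s,t) = C(s,j) + C(t,j-1)`. -/
def f (j s t : ℕ) : ℕ := s.choose j + t.choose (j - 1)

/-- The set of all values `k_r(G)` over finite graphs `G` with `k_p(G) ≤ x`; its greatest element
is `k_r(k_p ≤ x)`. -/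
def values (r p x : ℕ) : Set ℕ :=
  {m : ℕ | ∃ (n : ℕ) (G : SimpleGraph (Fin n)), cliqueCount G p ≤ x ∧ cliqueCount G r = m}

/-- `K^s` with two further non-adjacent vertices, joined to `t` and to `d` vertices of `K^s`. -/
def two (s t d : ℕ) : SimpleGraph (Fin s ⊕ Bool) where
  Adj x y := match x, y with
    | Sum.inl i, Sum.inl j => i ≠ j
    | Sum.inl i, Sum.inr b => i.val < (if b then t else d)
    | Sum.inr b, Sum.inl i => i.val < (if b then t else d)
    | Sum.inr _, Sum.inr _ => False
  symm := ⟨by
    rintro (i | b) (j | c) h
    · exact Ne.symm h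
    · exact h
    · exact h
    · exact h⟩
  loopless := ⟨by
    rintro (i | b) h
    · exact h rfl
    · exact h⟩

/-- the cliques inside `K^s`. -/
def base (s j : ℕ) : Finset (Finset (Fin s ⊕ Bool)) :=
  (powersetCard j (univ : Finset (Fin s))).image (fun A => A.image Sum.inl)

/-- the cliques through the extra vertex `b`, joined to the first `m` vertices. -/
def ext (s j m : ℕ) (b : Bool) : Finset (Finset (Fin s ⊕ Bool)) :=
  (powersetCard j (univ.filter (fun i : Fin s => i.val < m))).image
    (fun A => insert (Sum.inr b) (A.image Sum.inl))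

lemma inl_inj (s : ℕ) : Function.Injective (Sum.inl : Fin s → Fin s ⊕ Bool) := Sum.inl_injective

lemma card_base (s j : ℕ) : (base s j).card = s.choose j := by
  unfold base
  rw [card_image_of_injective _ (Finset.image_injective (inl_inj s)), card_powersetCard]
  simp

lemma card_ext (s j m : ℕ) (b : Bool) (hm : m ≤ s) : (ext s j m b).card = m.choose j := by
  unfold ext
  rw [card_image_of_injective, card_powersetCard]
  · congr 1
    rw [Fin.card_filter_val_lt]
    omega
  · intro A B h
    have h2 : A.image (Sum.inl : Fin s → Fin s ⊕ Bool) = B.image Sum.inl := by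
      ext x
      rcases x with i | c
      · have h3 := Finset.ext_iff.mp h (Sum.inl i)
        simpa using h3
      · simp
    exact Finset.image_injective (inl_inj s) h2

lemma nClique_iff (s t d j : ℕ) (hj : 1 ≤ j) (S : Finset (Fin s ⊕ Bool)) :
    (two s t d).IsNClique j S ↔
      S ∈ base s j ∪ (ext s (j-1) t true ∪ ext s (j-1) d false) := by
  constructor
  · intro h
    rw [SimpleGraph.isNClique_iff] at h
    obtain ⟨hc, hcard⟩ := h
    set A : Finset (Fin s) := univ.filter (fun i => Sum.inl i ∈ S) with hA
    have hmemA : ∀ i, i ∈ A ↔ (Sum.inl i : Fin s ⊕ Bool) ∈ S := by intro i; simp [hA]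
    have key : ∀ b : Bool, (Sum.inr b : Fin s ⊕ Bool) ∈ S →
        S = insert (Sum.inr b) (A.image Sum.inl) ∧
        A ∈ powersetCard (j-1) (univ.filter (fun i : Fin s => i.val < (if b then t else d))) := by
      intro b hb
      have e1 : S = insert (Sum.inr b) (A.image Sum.inl) := by
        ext x
        rcases x with i | c
        · simp [hmemA]
        · simp only [mem_insert, mem_image, reduceCtorEq, and_false, exists_false, or_false]
          constructor
          · intro hcS
            by_contra hne
            have := hc hcS hb hne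
            exact this
          · intro h; rw [h]; exact hb
      refine ⟨e1, ?_⟩
      rw [mem_powersetCard]
      constructor
      · intro i hi
        rw [mem_filter]
        refine ⟨mem_univ _, ?_⟩
        exact hc ((hmemA i).mp hi) hb (by simp)
      · rw [e1, card_insert_of_notMem (by simp), card_image_of_injective _ (inl_inj s)] at hcard
        omega
    by_cases h1 : (Sum.inr true : Fin s ⊕ Bool) ∈ S
    · obtain ⟨e1, e2⟩ := key true h1
      rw [mem_union, mem_union]
      right; left
      unfold ext
      rw [mem_image]
      exact ⟨A, by simpa using e2, e1.symm⟩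
    · by_cases h2 : (Sum.inr false : Fin s ⊕ Bool) ∈ S
      · obtain ⟨e1, e2⟩ := key false h2
        rw [mem_union, mem_union]
        right; right
        unfold ext
        rw [mem_image]
        exact ⟨A, by simpa using e2, e1.symm⟩
      · rw [mem_union]
        left
        unfold base
        rw [mem_image]
        have e1 : A.image Sum.inl = S := by
          ext x
          rcases x with i | c
          · simp [hmemA]
          · cases c <;> simp [h1, h2]
        refine ⟨A, ?_, e1⟩
        rw [mem_powersetCard]
        refine ⟨subset_univ _, ?_⟩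
        rw [← e1, card_image_of_injective _ (inl_inj s)] at hcard
        exact hcard
  · intro h
    rw [SimpleGraph.isNClique_iff]
    rw [mem_union, mem_union] at h
    have key : ∀ b : Bool, ∀ A : Finset (Fin s),
        A ∈ powersetCard (j-1) (univ.filter (fun i : Fin s => i.val < (if b then t else d))) →
        (two s t d).IsClique ((insert (Sum.inr b) (A.image Sum.inl) : Finset (Fin s ⊕ Bool)) :
          Set (Fin s ⊕ Bool)) ∧ (insert (Sum.inr b) (A.image Sum.inl) : Finset (Fin s ⊕ Bool)).card = j := by
      intro b A hA
      rw [mem_powersetCard] at hA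
      constructor
      · intro x hx y hy hxy
        rcases x with i | c <;> rcases y with i' | c'
        · intro h; exact hxy (by rw [h])
        · simp only [coe_insert, coe_image, Set.mem_insert_iff, reduceCtorEq, Set.mem_image,
            mem_coe, Sum.inl.injEq, exists_eq_right, false_or, Sum.inr.injEq, and_false,
            exists_false, or_false] at hx hy
          have := hA.1 hx
          rw [mem_filter] at this
          rw [hy]
          exact this.2
        · simp only [coe_insert, coe_image, Set.mem_insert_iff, reduceCtorEq, Set.mem_image,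
            mem_coe, Sum.inl.injEq, exists_eq_right, false_or, Sum.inr.injEq, and_false,
            exists_false, or_false] at hx hy
          have := hA.1 hy
          rw [mem_filter] at this
          rw [hx]
          exact this.2
        · simp only [coe_insert, coe_image, Set.mem_insert_iff, reduceCtorEq, Set.mem_image,
            mem_coe, Sum.inl.injEq, exists_eq_right, false_or, Sum.inr.injEq, and_false,
            exists_false, or_false] at hx hy
          exact absurd (by rw [hx, hy]) hxy
      · rw [card_insert_of_notMem (by simp), card_image_of_injective _ (inl_inj s), hA.2]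
        omega
    rcases h with h | h | h
    · unfold base at h
      rw [mem_image] at h
      obtain ⟨A, hA, rfl⟩ := h
      rw [mem_powersetCard] at hA
      constructor
      · intro x hx y hy hxy
        rcases x with i | c <;> rcases y with i' | c'
        · intro h; exact hxy (by rw [h])
        · simp at hy
        · simp at hx
        · simp at hx
      · rw [card_image_of_injective _ (inl_inj s), hA.2]
    · unfold ext at h
      rw [mem_image] at h
      obtain ⟨A, hA, rfl⟩ := h
      exact key true A (by simpa using hA)
    · unfold ext at h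
      rw [mem_image] at h
      obtain ⟨A, hA, rfl⟩ := h
      exact key false A (by simpa using hA)

/-- the clique counts of the construction. -/
lemma count_two (s t d j : ℕ) (hj : 1 ≤ j) (ht : t ≤ s) (hd : d ≤ s) :
    cliqueCount (two s t d) j = s.choose j + t.choose (j-1) + d.choose (j-1) := by
  unfold cliqueCount
  have : {S : Finset (Fin s ⊕ Bool) | (two s t d).IsNClique j S} =
      ((base s j ∪ (ext s (j-1) t true ∪ ext s (j-1) d false) :
        Finset (Finset (Fin s ⊕ Bool))) : Set (Finset (Fin s ⊕ Bool))) := by
    apply Set.ext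
    intro S
    exact nClique_iff s t d j hj S
  rw [this, Set.ncard_coe_finset, card_union_of_disjoint, card_union_of_disjoint, card_base,
    card_ext _ _ _ _ ht, card_ext _ _ _ _ hd]
  · ring
  · rw [Finset.disjoint_left]
    intro S h1 h2
    unfold ext at h1 h2
    rw [mem_image] at h1 h2
    obtain ⟨A, _, rfl⟩ := h1
    obtain ⟨B, _, h⟩ := h2
    have := Finset.ext_iff.mp h (Sum.inr true)
    simp at this
  · rw [Finset.disjoint_left]
    intro S h1 h2
    unfold base at h1
    rw [mem_image] at h1
    obtain ⟨A, _, rfl⟩ := h1
    rw [mem_union] at h2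
    rcases h2 with h2 | h2
    · unfold ext at h2
      rw [mem_image] at h2
      obtain ⟨B, _, h⟩ := h2
      have := Finset.ext_iff.mp h (Sum.inr true)
      simp at this
    · unfold ext at h2
      rw [mem_image] at h2
      obtain ⟨B, _, h⟩ := h2
      have := Finset.ext_iff.mp h (Sum.inr false)
      simp at this

lemma count_iso {V W : Type} (G : SimpleGraph V) (H : SimpleGraph W) (e : G ≃g H) (j : ℕ) :
    cliqueCount G j = cliqueCount H j := by
  classical
  unfold cliqueCount
  apply Set.ncard_congr (fun S _ => S.map e.toEquiv.toEmbedding)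
  · intro S hS
    change H.IsNClique j _
    have hS' : G.IsNClique j S := hS
    rw [SimpleGraph.isNClique_iff] at hS' ⊢
    refine ⟨?_, by rw [card_map]; exact hS'.2⟩
    intro x hx y hy hxy
    simp only [coe_map, Set.mem_image, mem_coe] at hx hy
    obtain ⟨a, ha, rfl⟩ := hx
    obtain ⟨b, hb, rfl⟩ := hy
    have hab : a ≠ b := fun h => hxy (by rw [h])
    exact e.map_adj_iff.mpr (hS'.1 ha hb hab)
  · intro S T _ _ h
    exact Finset.map_injective _ h
  · intro T hT
    have hT' : H.IsNClique j T := hT
    rw [SimpleGraph.isNClique_iff] at hT'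
    refine ⟨T.map e.symm.toEquiv.toEmbedding, ?_, ?_⟩
    · change G.IsNClique j _
      rw [SimpleGraph.isNClique_iff]
      refine ⟨?_, by rw [card_map]; exact hT'.2⟩
      intro x hx y hy hxy
      simp only [coe_map, Set.mem_image, mem_coe] at hx hy
      obtain ⟨a, ha, rfl⟩ := hx
      obtain ⟨b, hb, rfl⟩ := hy
      have hab : a ≠ b := fun h => hxy (by rw [h])
      exact e.symm.map_adj_iff.mpr (hT'.1 ha hb hab)
    · ext x
      simp only [mem_map, Equiv.coe_toEmbedding, RelIso.coe_fn_toEquiv, exists_exists_and_eq_and]
      constructor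
      · rintro ⟨a, ha, rfl⟩
        simpa using ha
      · intro hx
        exact ⟨x, hx, by simp⟩

lemma le_choose : ∀ u k : ℕ, 1 ≤ k → k ≤ u → u + 1 ≤ (u+1).choose k := by
  intro u
  induction u with
  | zero => intro k h1 h2; omega
  | succ u ih =>
    intro k h1 h2
    obtain ⟨q, rfl⟩ : ∃ q, k = q + 1 := ⟨k - 1, by omega⟩
    rw [Nat.choose_succ_succ']
    rcases Nat.lt_or_ge u (q+1) with h | h
    · have : q = u := by omega
      subst this
      rw [Nat.choose_self]
      have : (q+1).choose q = q + 1 := by
        rw [Nat.choose_succ_self_right]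
      omega
    · have h3 := ih (q+1) (by omega) h
      have h4 : 0 < (u+1).choose q := Nat.choose_pos (by omega)
      omega

/-- Q1 fails: whenever `3 ≤ p < r ≤ s`, `t < s` and `C(r-1,p-1) < C(t,p-2)`, the value
`f_r(s,t) + 1` is attained by a graph with `k_p ≤ f_p(s,t+1) - 1`, so `f_r(s,t)` is not the
maximum. In particular for all `3 ≤ p < r` the proposed formula fails for all large `t` and all
`s > t`, and it fails for `(p,r,s,t) = (3,4,5,4)`. -/
theorem result :
    (∀ p r s t : ℕ, 3 ≤ p → p < r → r ≤ s → t < s → (r-1).choose (p-1) < t.choose (p-2) →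
      f r s t + 1 ∈ values r p (f p s (t+1) - 1)) ∧
    (∀ p r : ℕ, 3 ≤ p → p < r → ∃ t₀ : ℕ, ∀ t : ℕ, t₀ ≤ t → ∀ s : ℕ, t < s →
      r ≤ s ∧ p - 2 ≤ t ∧ ¬ IsGreatest (values r p (f p s (t+1) - 1)) (f r s t)) ∧
    ¬ IsGreatest (values 4 3 (f 3 5 (4+1) - 1)) (f 4 5 4) ∧
    ¬ (∀ p r s t : ℕ, 3 ≤ p → p < r → r ≤ s → p - 2 ≤ t → t < s →
      IsGreatest (values r p (f p s (t+1) - 1)) (f r s t)) := by
  have main : ∀ p r s t : ℕ, 3 ≤ p → p < r → r ≤ s → t < s →
      (r-1).choose (p-1) < t.choose (p-2) → f r s t + 1 ∈ values r p (f p s (t+1) - 1) := by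
    intro p r s t hp hpr hrs hts hlt
    obtain ⟨e⟩ : Nonempty ((Fin s ⊕ Bool) ≃ Fin (s+2)) :=
      ⟨Fintype.equivFinOfCardEq (by simp)⟩
    refine ⟨s+2, (two s t (r-1)).map e, ?_, ?_⟩
    · rw [← count_iso _ _ (SimpleGraph.Iso.map e (two s t (r-1))) p,
        count_two s t (r-1) p (by omega) (by omega) (by omega)]
      unfold f
      have h1 : (t+1).choose (p-1) = t.choose (p-2) + t.choose (p-1) := by
        obtain ⟨q, rfl⟩ : ∃ q, p = q + 2 := ⟨p - 2, by omega⟩
        have : q + 2 - 1 = q + 1 := by omega
        rw [this, Nat.choose_succ_succ]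
        simp
      rw [h1]
      omega
    · rw [← count_iso _ _ (SimpleGraph.Iso.map e (two s t (r-1))) r,
        count_two s t (r-1) r (by omega) (by omega) (by omega)]
      unfold f
      rw [Nat.choose_self]
  have nope : ∀ p r s t : ℕ, 3 ≤ p → p < r → r ≤ s → t < s →
      (r-1).choose (p-1) < t.choose (p-2) →
      ¬ IsGreatest (values r p (f p s (t+1) - 1)) (f r s t) := by
    intro p r s t hp hpr hrs hts hlt h
    have := h.2 (main p r s t hp hpr hrs hts hlt)
    omega
  have h345 : ¬ IsGreatest (values 4 3 (f 3 5 (4+1) - 1)) (f 4 5 4) :=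
    nope 3 4 5 4 (by norm_num) (by norm_num) (by norm_num) (by norm_num) (by decide)
  refine ⟨main, ?_, h345, ?_⟩
  · intro p r hp hpr
    refine ⟨(r-1).choose (p-1) + r + p, ?_⟩
    intro t ht s hts
    refine ⟨by omega, by omega, nope p r s t hp hpr (by omega) hts ?_⟩
    have h1 : t ≤ t.choose (p-2) := by
      have h2 : 1 ≤ p - 2 := by omega
      have h3 : p - 2 ≤ t - 1 := by omega
      calc t = t.choose 1 := by simp
        _ ≤ t.choose (p-2) := ?_
      obtain ⟨u, rfl⟩ : ∃ u, t = u + 1 := ⟨t - 1, by omega⟩
      simpa using le_choose u (p-2) h2 (by omega)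
    omega
  · intro h
    exact h345 (h 3 4 5 4 (by norm_num) (by norm_num) (by norm_num) (by norm_num) (by norm_num))

end Pool.Agent.Results.MP_8926dc_co.TwoPendants
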